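import Pool.Agent.Y557.NF.SimD

/-!
# Vojta's inequality for almost all points, for all finite subsets of small height at once

`K` is a number field of degree `d`. The conjecture concerns one finite subset `α_1, …, α_q` of the
projective line over `K` and one finite set `T` of primes. Here one set of exceptional points of the
line, a power-saving proportion of all points, serves all finite subsets (with at least three
elements) of height at most `η log X` and all sets of primes of norm at most `X ^ η`: at all other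
points `x` of the line, of whatever height, for which the counting function `N(x)` is at most
`(q / 3) log X`, one has `(1 - ε) q h(x) ≤ N(x) + c q`.
-/

set_option autoImplicit false

namespace Pool.Agent.Results.MP_4d5ce1_nt.AllFiniteSubsetsAtOnce

open NumberField IsDedekindDomain

variable {K : Type} [Field K] [NumberField K]

/-- the absolute logarithmic height (the height of Mathlib is relative to `K`) -/
noncomputable def height (x : Fin 2 → K) : ℝ :=
  Height.logHeight x / (Module.finrank ℚ K : ℝ)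

/-- the sum over the primes `v ∉ T` and over `l` of the truncated local heights
`λ⁽¹⁾_v(α_l, x) = min (λ_v(α_l, x), log N(v) / d)` -/
noncomputable def counting (T : Set (HeightOneSpectrum (𝓞 K))) {q : ℕ} (α : Fin q → Fin 2 → K)
    (x : Fin 2 → K) : ℝ :=
  ∑ᶠ (v : HeightOneSpectrum (𝓞 K)) (_ : v ∉ T), ∑ l : Fin q,
    min
      (Real.log
          (max (FinitePlace.mk v (x 0)) (FinitePlace.mk v (x 1)) *
            max (FinitePlace.mk v (α l 0)) (FinitePlace.mk v (α l 1)) /
            FinitePlace.mk v (x 0 * α l 1 - x 1 * α l 0)) /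
        (Module.finrank ℚ K : ℝ))
      (Real.log (Ideal.absNorm v.asIdeal : ℝ) / (Module.finrank ℚ K : ℝ))

/-- the points `[x 0 : x 1]` of the projective line over `K`, different from all the `α_l`, with
`∑_{v ∉ T} ∑_l λ⁽¹⁾_v(α_l, x) ≤ log X`; there is no condition on the height -/
def Points (T : Set (HeightOneSpectrum (𝓞 K))) {q : ℕ} (α : Fin q → Fin 2 → K) (X : ℝ) :
    Set (Projectivization K (Fin 2 → K)) :=
  {P | ∃ (x : Fin 2 → K) (hx : x ≠ 0), P = Projectivization.mk K x hx ∧
    (∀ l, x 0 * α l 1 - x 1 * α l 0 ≠ 0) ∧ counting T α x ≤ Real.log X}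

/-- at least three distinct points of the line, of height at most `B` -/
def Subset {q : ℕ} (α : Fin q → Fin 2 → K) (B : ℝ) : Prop :=
  3 ≤ q ∧ (∀ i j, i ≠ j → α i 0 * α j 1 - α i 1 * α j 0 ≠ 0) ∧ ∀ i, height (α i) ≤ B

/-- the points `x` of the line for which there are a number `q ≥ 3`, distinct points `α_1, …, α_q`
of the line, all different from `x` and of height at most `η log X`, and a set `T` of primes whose
norms have a product of at most `X ^ η`, such that `N(x) = ∑_{v ∉ T} ∑_l λ⁽¹⁾_v(α_l, x)` is at most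
`(q / 3) log X` and `(1 - ε) q h(x) ≤ N(x) + c q` fails -/
def Exceptions (K : Type) [Field K] [NumberField K] (ε c η X : ℝ) :
    Set (Projectivization K (Fin 2 → K)) :=
  {P | ∃ (x : Fin 2 → K) (hx : x ≠ 0), P = Projectivization.mk K x hx ∧
    ∃ (q : ℕ) (α : Fin q → Fin 2 → K) (T : Finset (HeightOneSpectrum (𝓞 K))),
      Subset α (η * Real.log X) ∧
      ∑ v ∈ T, Real.log (Ideal.absNorm v.asIdeal : ℝ) ≤ η * Real.log X ∧
      (∀ l, x 0 * α l 1 - x 1 * α l 0 ≠ 0) ∧
      counting (T : Set (HeightOneSpectrum (𝓞 K))) α x ≤ q / 3 * Real.log X ∧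
      counting (T : Set (HeightOneSpectrum (𝓞 K))) α x + c * q < (1 - ε) * q * height x}

open Pool.Agent.Y730.QP Pool.Agent.TH876.Loc in
theorem counting_eq (T : Set (HeightOneSpectrum (𝓞 K))) {q : ℕ} (α : Fin q → Fin 2 → K)
    (x : Fin 2 → K) : (Module.finrank ℚ K : ℝ) * counting T α x = cnt T α x := by
  classical
  have hd : (0 : ℝ) < Module.finrank ℚ K := by exact_mod_cast (Module.finrank_pos (R := ℚ) (M := K))
  unfold counting cnt
  rw [mul_finsum]
  refine finsum_congr fun v => ?_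
  rw [finsum_eq_if, finsum_eq_if]
  split_ifs with hv
  · rw [mul_zero]
  rw [Finset.mul_sum]
  refine Finset.sum_congr rfl fun l _ => ?_
  rw [mul_min_of_nonneg _ _ hd.le, mul_div_cancel₀ _ hd.ne', mul_div_cancel₀ _ hd.ne']
  have e : x 0 * α l 1 - x 1 * α l 0 = -Pool.Agent.TH876.KR.form (α l) x := by
    unfold Pool.Agent.TH876.KR.form
    ring
  have e2 : FinitePlace.mk v (x 0 * α l 1 - x 1 * α l 0) =
      FinitePlace.mk v (Pool.Agent.TH876.KR.form (α l) x) := by
    rw [e]
    exact (FinitePlace.mk v).1.map_neg _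
  rw [e2, mul_comm (max (FinitePlace.mk v (x 0)) (FinitePlace.mk v (x 1)))]
  rfl

omit [NumberField K] in
theorem form_iff {q : ℕ} (α : Fin q → Fin 2 → K) (x : Fin 2 → K) :
    (∀ l, x 0 * α l 1 - x 1 * α l 0 ≠ 0) ↔ ∀ i, Pool.Agent.TH876.KR.form (α i) x ≠ 0 := by
  refine forall_congr' fun l => ?_
  have e : x 0 * α l 1 - x 1 * α l 0 = -Pool.Agent.TH876.KR.form (α l) x := by
    unfold Pool.Agent.TH876.KR.form
    ring
  rw [e, Ne, neg_eq_zero]

open Pool.Agent.Y557.NF in
theorem exceptions_sub (K : Type) [Field K] [NumberField K] {ε c η X : ℝ} (hε : 0 < ε)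
    (hX : 1 ≤ X) (hη : 0 ≤ η) : Exceptions K ε c η X ⊆
      ES K (min (ε / 2) (1 / 2)) η ((Module.finrank ℚ K : ℝ) * Real.log X) ∪
        HB K (2 * |c| * (Module.finrank ℚ K : ℝ) / ε) := by
  have hd : (0 : ℝ) < Module.finrank ℚ K := by exact_mod_cast (Module.finrank_pos (R := ℚ) (M := K))
  have hd1 : (1 : ℝ) ≤ Module.finrank ℚ K := by
    exact_mod_cast (Module.finrank_pos (R := ℚ) (M := K))
  obtain ⟨d, hdd⟩ : ∃ d : ℝ, d = Module.finrank ℚ K := ⟨_, rfl⟩
  have hheight : ∀ y : Fin 2 → K, d * height y = Height.logHeight y := by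
    intro y
    unfold height
    rw [← hdd]
    rw [← hdd] at hd
    field_simp
  have hcnt : ∀ {q : ℕ} (T : Set (HeightOneSpectrum (𝓞 K))) (α : Fin q → Fin 2 → K) (x : Fin 2 → K),
      d * counting T α x = Pool.Agent.Y730.QP.cnt T α x := by
    intro q T α x
    rw [hdd]
    exact counting_eq T α x
  rw [← hdd] at hd hd1 ⊢
  have hlog : 0 ≤ Real.log X := Real.log_nonneg hX
  rintro P ⟨x, hx, e, q, α, T, ⟨hq, hα, hh⟩, hT, hf, h1, h2⟩
  by_cases hB : Height.logHeight x ≤ 2 * |c| * d / ε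
  · right
    exact ⟨x, hx, e, hB⟩
  left
  push Not at hB
  have hq0 : (0 : ℝ) < q := by exact_mod_cast (by omega : 0 < q)
  have hH0 : 0 ≤ Height.logHeight x := Height.logHeight_nonneg x
  refine ⟨x, hx, e, q, α, T, hq, hα, fun i => ?_, ?_, (form_iff α x).1 hf, ?_, ?_⟩
  · rw [← hheight]
    have := mul_le_mul_of_nonneg_left (hh i) hd.le
    linarith
  · refine le_trans hT ?_
    have h3 : η * Real.log X ≤ d * (η * Real.log X) :=
      le_mul_of_one_le_left (mul_nonneg hη hlog) hd1
    linarith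
  · rw [← hcnt]
    have := mul_le_mul_of_nonneg_left h1 hd.le
    linarith
  · rw [← hcnt]
    have h3 := mul_lt_mul_of_pos_left h2 hd
    have h4 : d * ((1 - ε) * q * height x) = (1 - ε) * q * Height.logHeight x := by
      rw [← hheight]
      ring
    rw [h4, mul_add] at h3
    have h5 : |c| * d ≤ ε / 2 * Height.logHeight x := by
      rw [div_lt_iff₀ hε] at hB
      linarith
    have h6 : -(|c| * d) * q ≤ d * (c * q) := by
      have h7 : -|c| ≤ c := neg_abs_le c
      have h8 := mul_le_mul_of_nonneg_left h7 (mul_pos hd hq0).le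
      linarith
    have h7 : |c| * d * q ≤ ε / 2 * Height.logHeight x * q := mul_le_mul_of_nonneg_right h5 hq0.le
    have h8 : (1 - ε / 2) * q * Height.logHeight x ≤
        (1 - min (ε / 2) (1 / 2)) * q * Height.logHeight x := by
      refine mul_le_mul_of_nonneg_right (mul_le_mul_of_nonneg_right ?_ hq0.le) hH0
      have := min_le_left (ε / 2) (1 / 2 : ℝ)
      linarith
    nlinarith

open Pool.Agent.Y557.NF in
/-- **Vojta's inequality for almost all points of the line, for all finite subsets at once.** Let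
`K` be a number field of degree `d`, `ε > 0` and `c` real. There are `η, ν > 0` with the following
properties.
(1) The number of points `x` of the line over `K`, of whatever height, which violate
`(1 - ε) q h(x) ≤ ∑_{v ∉ T} ∑_l λ⁽¹⁾_v(α_l, x) + c q` for some `q ≥ 3`, some distinct points
`α_1, …, α_q` of height at most `η log X` and some set `T` of primes of norm at most `X ^ η` with
`∑_{v ∉ T} ∑_l λ⁽¹⁾_v(α_l, x) ≤ (q / 3) log X` is at most `C X ^ (2 d / 3 - ν)`, `X ≥ 1`.
(2) For large `X` and every single choice of `q`, `α_1, …, α_q` and `T` this number is at most the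
`X ^ (-ν)`-th part of the number of all points with
`∑_{v ∉ T} ∑_l λ⁽¹⁾_v(α_l, x) ≤ (q / 3) log X`. -/
theorem result (K : Type) [Field K] [NumberField K] (ε : ℝ) (hε : 0 < ε) (c : ℝ) :
    ∃ η ν : ℝ, 0 < η ∧ 0 < ν ∧
      (∃ C : ℝ, ∀ X : ℝ, 1 ≤ X → (Exceptions K ε c η X).Finite ∧
        ((Exceptions K ε c η X).ncard : ℝ) ≤
          C * X ^ (2 * (Module.finrank ℚ K : ℝ) / 3 - ν)) ∧
      ∃ X₀ : ℝ, ∀ X : ℝ, X₀ ≤ X → ∀ (q : ℕ) (α : Fin q → Fin 2 → K)
        (T : Set (HeightOneSpectrum (𝓞 K))), Subset α (η * Real.log X) → T.Finite →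
        ((Exceptions K ε c η X).ncard : ℝ) ≤
          X ^ (-ν) * ((Points T α (X ^ ((q : ℝ) / 3))).ncard : ℝ) := by
  have hd : (0 : ℝ) < Module.finrank ℚ K := by exact_mod_cast (Module.finrank_pos (R := ℚ) (M := K))
  have hd1 : (1 : ℝ) ≤ Module.finrank ℚ K := by
    exact_mod_cast (Module.finrank_pos (R := ℚ) (M := K))
  obtain ⟨η₀, ν, hη₀, hν, hν1, hup⟩ := sim_upper K (min (ε / 2) (1 / 2))
    (lt_min (by positivity) (by norm_num)) (min_le_right _ _)
  obtain ⟨η, hη⟩ : ∃ η, η = min η₀ (ν / 48) := ⟨_, rfl⟩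
  have hη0 : 0 < η := by rw [hη]; exact lt_min hη₀ (by positivity)
  have hηa : η ≤ η₀ := by rw [hη]; exact min_le_left _ _
  have hηb : η ≤ ν / 48 := by rw [hη]; exact min_le_right _ _
  obtain ⟨C, hC, hCC⟩ := hup η hη0.le hηa
  obtain ⟨Λ0, hΛ00, hlow⟩ := sim_lower K (ν / 2) η (by positivity) (by linarith) hη0 (by linarith)
  obtain ⟨C2, hC2, hfew⟩ := few_small K
  obtain ⟨n, hn⟩ : ∃ n : ℝ, n = ((HB K (2 * |c| * (Module.finrank ℚ K : ℝ) / ε)).ncard : ℝ) :=
    ⟨_, rfl⟩
  have hn0 : 0 ≤ n := by rw [hn]; positivity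
  have hfinB : (HB K (2 * |c| * (Module.finrank ℚ K : ℝ) / ε)).Finite :=
    (hfew _ (by positivity)).1
  obtain ⟨d, hdd⟩ : ∃ d : ℝ, d = Module.finrank ℚ K := ⟨_, rfl⟩
  -- the upper bound
  have hupper : ∀ X : ℝ, 1 ≤ X → (Exceptions K ε c η X).Finite ∧
      ((Exceptions K ε c η X).ncard : ℝ) ≤ (C + n) * X ^ (2 * d / 3 - d * ν) := by
    intro X hX
    have hX0 : 0 < X := by linarith
    have hΛ : 0 ≤ (Module.finrank ℚ K : ℝ) * Real.log X := mul_nonneg hd.le (Real.log_nonneg hX)
    obtain ⟨hfin, hcard⟩ := hCC _ hΛ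
    have hsub := exceptions_sub K (c := c) hε hX hη0.le
    have hfinU := hfin.union hfinB
    refine ⟨hfinU.subset hsub, ?_⟩
    have h1 : ((Exceptions K ε c η X).ncard : ℝ) ≤
        ((ES K (min (ε / 2) (1 / 2)) η ((Module.finrank ℚ K : ℝ) * Real.log X)).ncard : ℝ) + n := by
      rw [hn]
      exact_mod_cast (Set.ncard_le_ncard hsub hfinU).trans (Set.ncard_union_le _ _)
    have e1 : Real.exp ((2 / 3 - ν) * ((Module.finrank ℚ K : ℝ) * Real.log X)) =
        X ^ (2 * d / 3 - d * ν) := by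
      rw [Real.rpow_def_of_pos hX0, hdd]
      congr 1
      ring
    rw [e1] at hcard
    have h2 : 1 ≤ X ^ (2 * d / 3 - d * ν) := by
      rw [← e1]
      exact Real.one_le_exp (mul_nonneg (by linarith) hΛ)
    nlinarith
  refine ⟨η, d * ν / 4, hη0, by rw [hdd]; positivity, ⟨C + n, fun X hX => ?_⟩, ?_⟩
  · obtain ⟨h1, h2⟩ := hupper X hX
    refine ⟨h1, h2.trans ?_⟩
    refine mul_le_mul_of_nonneg_left ?_ (by positivity)
    rw [← hdd]
    have hdν : 0 < d * ν := by rw [hdd]; positivity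
    exact Real.rpow_le_rpow_of_exponent_le hX (by linarith)
  · have htend : Filter.Tendsto (fun X : ℝ => X ^ (d * ν / 4)) Filter.atTop Filter.atTop :=
      tendsto_rpow_atTop (by rw [hdd]; positivity)
    obtain ⟨X₁, hX₁⟩ := (Filter.eventually_atTop.1
      (htend.eventually (Filter.eventually_ge_atTop (C + n))))
    refine ⟨max (max 1 X₁) (Real.exp Λ0), fun X hX q α T hα hT => ?_⟩
    have hX1 : 1 ≤ X := (le_max_left _ _).trans ((le_max_left _ _).trans hX)
    have hX2 : X₁ ≤ X := (le_max_right _ _).trans ((le_max_left _ _).trans hX)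
    have hX3 : Real.exp Λ0 ≤ X := (le_max_right _ _).trans hX
    have hX0 : 0 < X := by linarith
    have hlogX : Λ0 ≤ Real.log X := (Real.le_log_iff_exp_le hX0).2 hX3
    have hΛ : Λ0 ≤ (Module.finrank ℚ K : ℝ) * Real.log X :=
      hlogX.trans (le_mul_of_one_le_left (hΛ00.trans hlogX) hd1)
    obtain ⟨hq, hα1, hα2⟩ := hα
    have h1 := hlow _ hΛ q α T hq hα1 (fun i => by
      have h2 := mul_le_mul_of_nonneg_left (hα2 i) hd.le
      have h3 : (Module.finrank ℚ K : ℝ) * height (α i) = Height.logHeight (α i) := by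
        unfold height
        field_simp
      rw [h3] at h2
      linarith) hT
    have e0 : Pool.Agent.Y730.QP.PQ T α
        (Real.exp ((q : ℝ) / 3 * ((Module.finrank ℚ K : ℝ) * Real.log X))) ⊆
        Points T α (X ^ ((q : ℝ) / 3)) := by
      rintro P ⟨x, hx, e, hf, hc⟩
      refine ⟨x, hx, e, (form_iff α x).2 hf, ?_⟩
      rw [Real.log_exp, ← counting_eq] at hc
      rw [Real.log_rpow hX0]
      refine le_of_mul_le_mul_left (le_of_le_of_eq hc ?_) hd
      ring
    have e0' : Points T α (X ^ ((q : ℝ) / 3)) ⊆ Pool.Agent.Y730.QP.PQ T α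
        (Real.exp ((q : ℝ) / 3 * ((Module.finrank ℚ K : ℝ) * Real.log X))) := by
      rintro P ⟨x, hx, e, hf, hc⟩
      refine ⟨x, hx, e, (form_iff α x).1 hf, ?_⟩
      rw [Real.log_exp, ← counting_eq]
      rw [Real.log_rpow hX0] at hc
      have := mul_le_mul_of_nonneg_left hc hd.le
      linarith
    rw [Set.Subset.antisymm e0 e0'] at h1
    have e1 : Real.exp ((2 / 3 - ν / 2) * ((Module.finrank ℚ K : ℝ) * Real.log X)) =
        X ^ (2 * d / 3 - d * ν / 2) := by
      rw [Real.rpow_def_of_pos hX0, hdd]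
      congr 1
      ring
    rw [e1] at h1
    have h2 := (hupper X hX1).2
    have hp : ∀ b : ℝ, 0 < X ^ b := fun b => Real.rpow_pos_of_pos hX0 b
    calc ((Exceptions K ε c η X).ncard : ℝ) ≤ (C + n) * X ^ (2 * d / 3 - d * ν) := h2
      _ ≤ X ^ (d * ν / 4) * X ^ (2 * d / 3 - d * ν) :=
          mul_le_mul_of_nonneg_right (hX₁ X hX2) (hp _).le
      _ = X ^ (-(d * ν / 4)) * X ^ (2 * d / 3 - d * ν / 2) := by
          rw [← Real.rpow_add hX0, ← Real.rpow_add hX0]
          congr 1
          ring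
      _ ≤ _ := mul_le_mul_of_nonneg_left h1 (hp _).le

end Pool.Agent.Results.MP_4d5ce1_nt.AllFiniteSubsetsAtOnce
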