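import Pool.Agent.Y730.QP

/-!
# The abc conjecture for finite subsets of the projective line over a number field: the points of
all heights, counted by their truncated counting function, with the exact exponent

`K` is a number field of degree `d`, `T` a finite set of primes, `α_1, …, α_q` are `q ≥ 3` distinct
points of the projective line over `K`.
-/

set_option autoImplicit false

namespace Pool.Agent.Results.MP_4d5ce1_nt.AllHeightsNumberFields

open NumberField IsDedekindDomain

variable {K : Type} [Field K] [NumberField K]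

/-- the sum over the primes `v ∉ T` and over `l` of the truncated local heights
`λ⁽¹⁾_v(α_l, x) = min (λ_v(α_l, x), log N(v) / d)` -/
noncomputable def counting (T : Set (HeightOneSpectrum (𝓞 K))) {q : ℕ} (α : Fin q → Fin 2 → K)
    (x : Fin 2 → K) : ℝ :=
  ∑ᶠ (v : HeightOneSpectrum (𝓞 K)) (_ : v ∉ T), ∑ l : Fin q,
    min
      (Real.log
          (max (FinitePlace.mk v (x 0)) (FinitePlace.mk v (x 1)) *
            max (FinitePlace.mk v (α l 0)) (FinitePlace.mk v (α l 1)) /
            FinitePlace.mk v (x 0 * α l 1 - x 1 * α l 0)) /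
        (Module.finrank ℚ K : ℝ))
      (Real.log (Ideal.absNorm v.asIdeal : ℝ) / (Module.finrank ℚ K : ℝ))

/-- the points `[x 0 : x 1]` of the projective line over `K`, different from all the `α_l`, with
`∑_{v ∉ T} ∑_l λ⁽¹⁾_v(α_l, x) ≤ log X`; there is no condition on the height -/
def Points (T : Set (HeightOneSpectrum (𝓞 K))) {q : ℕ} (α : Fin q → Fin 2 → K) (X : ℝ) :
    Set (Projectivization K (Fin 2 → K)) :=
  {P | ∃ (x : Fin 2 → K) (hx : x ≠ 0), P = Projectivization.mk K x hx ∧
    (∀ l, x 0 * α l 1 - x 1 * α l 0 ≠ 0) ∧ counting T α x ≤ Real.log X}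

open Pool.Agent.Y730.QP Pool.Agent.TH876.Loc in
theorem counting_eq (T : Set (HeightOneSpectrum (𝓞 K))) {q : ℕ} (α : Fin q → Fin 2 → K)
    (x : Fin 2 → K) : (Module.finrank ℚ K : ℝ) * counting T α x = cnt T α x := by
  classical
  have hd : (0 : ℝ) < Module.finrank ℚ K := by exact_mod_cast (Module.finrank_pos (R := ℚ) (M := K))
  unfold counting cnt
  rw [mul_finsum]
  refine finsum_congr fun v => ?_
  rw [finsum_eq_if, finsum_eq_if]
  split_ifs with hv
  · rw [mul_zero]
  rw [Finset.mul_sum]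
  refine Finset.sum_congr rfl fun l _ => ?_
  rw [mul_min_of_nonneg _ _ hd.le, mul_div_cancel₀ _ hd.ne', mul_div_cancel₀ _ hd.ne']
  have e : x 0 * α l 1 - x 1 * α l 0 = -Pool.Agent.TH876.KR.form (α l) x := by
    unfold Pool.Agent.TH876.KR.form
    ring
  have e2 : FinitePlace.mk v (x 0 * α l 1 - x 1 * α l 0) =
      FinitePlace.mk v (Pool.Agent.TH876.KR.form (α l) x) := by
    rw [e]
    exact (FinitePlace.mk v).1.map_neg _
  rw [e2, mul_comm (max (FinitePlace.mk v (x 0)) (FinitePlace.mk v (x 1)))]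
  rfl

open Pool.Agent.Y730.QP in
theorem points_eq (T : Set (HeightOneSpectrum (𝓞 K))) {q : ℕ} (α : Fin q → Fin 2 → K) (X : ℝ)
    (hX : 1 ≤ X) : Points T α X = PQ T α (X ^ (Module.finrank ℚ K : ℝ)) := by
  have hd : (0 : ℝ) < Module.finrank ℚ K := by exact_mod_cast (Module.finrank_pos (R := ℚ) (M := K))
  have hf : ∀ x : Fin 2 → K, (∀ l, x 0 * α l 1 - x 1 * α l 0 ≠ 0) ↔
      ∀ i, Pool.Agent.TH876.KR.form (α i) x ≠ 0 := by
    intro x
    refine forall_congr' fun l => ?_
    have e : x 0 * α l 1 - x 1 * α l 0 = -Pool.Agent.TH876.KR.form (α l) x := by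
      unfold Pool.Agent.TH876.KR.form
      ring
    rw [e, Ne, neg_eq_zero]
  ext P
  constructor
  · rintro ⟨x, hx, e, h1, h2⟩
    refine ⟨x, hx, e, (hf x).1 h1, ?_⟩
    rw [← counting_eq, Real.log_rpow (by linarith)]
    exact mul_le_mul_of_nonneg_left h2 hd.le
  · rintro ⟨x, hx, e, h1, h2⟩
    refine ⟨x, hx, e, (hf x).2 h1, ?_⟩
    rw [← counting_eq, Real.log_rpow (by linarith)] at h2
    exact le_of_mul_le_mul_left h2 hd

/-- **All heights, any number field, exact exponent.** Let `K` be a number field of degree `d`,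
`T` a finite set of primes of `K`, `q ≥ 3` and `α_1, …, α_q` distinct points of the projective line
over `K`. The number of all points `x`, different from all the `α_l`, of whatever height, with
`∑_{v ∉ T} ∑_l λ⁽¹⁾_v(α_l, x) ≤ log X` is `X ^ (2 d / q + o(1))`: for every `δ > 0` it is at most
`C X ^ (2 d / q + δ)` for `X ≥ 1`, and at least `X ^ (2 d / q - δ)` for `X ≥ X₀`. -/
theorem result : ∀ (K : Type) [Field K] [NumberField K] (T : Set (HeightOneSpectrum (𝓞 K))),
    T.Finite → ∀ (q : ℕ), 3 ≤ q → ∀ (α : Fin q → Fin 2 → K),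
      (∀ i j, i ≠ j → α i 0 * α j 1 - α i 1 * α j 0 ≠ 0) → ∀ δ : ℝ, 0 < δ →
        (∃ C : ℝ, ∀ X : ℝ, 1 ≤ X → (Points T α X).Finite ∧
          ((Points T α X).ncard : ℝ) ≤ C * X ^ (2 * (Module.finrank ℚ K : ℝ) / q + δ)) ∧
        (∃ X₀ : ℝ, ∀ X : ℝ, X₀ ≤ X →
          X ^ (2 * (Module.finrank ℚ K : ℝ) / q - δ) ≤ ((Points T α X).ncard : ℝ)) := by
  intro K _ _ T hT q hq α hα δ hδ
  have hd : (0 : ℝ) < Module.finrank ℚ K := by exact_mod_cast (Module.finrank_pos (R := ℚ) (M := K))
  have ha0 : ∀ i, α i ≠ 0 := by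
    intro i h
    obtain ⟨j, hj⟩ : ∃ j : Fin q, i ≠ j := by
      by_cases h : i = ⟨0, by omega⟩
      · refine ⟨⟨1, by omega⟩, ?_⟩
        rw [h]
        intro h'
        have := congrArg Fin.val h'
        simp at this
      · exact ⟨_, h⟩
    apply hα i j hj
    rw [h]
    simp
  constructor
  · obtain ⟨C, hC⟩ := Pool.Agent.Y730.QP.upper K T hT q hq α ha0 hα
      (δ / (Module.finrank ℚ K : ℝ)) (by positivity)
    refine ⟨C, fun X hX => ?_⟩
    have hX0 : 0 < X := by linarith
    obtain ⟨h1, h2⟩ := hC (X ^ (Module.finrank ℚ K : ℝ)) (Real.one_le_rpow hX hd.le)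
    rw [← points_eq T α X hX] at h1 h2
    refine ⟨h1, h2.trans (le_of_eq ?_)⟩
    rw [← Real.rpow_mul hX0.le]
    congr 2
    field_simp
  · obtain ⟨X0, hX01, hX0⟩ := Pool.Agent.Y730.QP.lower K T hT q hq α ha0 hα
      (δ / (Module.finrank ℚ K : ℝ)) (by positivity)
    refine ⟨X0, fun X hX => ?_⟩
    have hX1 : 1 ≤ X := hX01.trans hX
    have hXp : 0 < X := by linarith
    have hge : X0 ≤ X ^ (Module.finrank ℚ K : ℝ) := by
      refine hX.trans ?_
      have h1 : (1 : ℝ) ≤ Module.finrank ℚ K := by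
        exact_mod_cast (Module.finrank_pos (R := ℚ) (M := K))
      calc X = X ^ (1 : ℝ) := (Real.rpow_one X).symm
        _ ≤ _ := Real.rpow_le_rpow_of_exponent_le hX1 h1
    have h2 := hX0 _ hge
    rw [← points_eq T α X hX1] at h2
    refine le_trans (le_of_eq ?_) h2
    rw [← Real.rpow_mul hXp.le]
    congr 1
    field_simp

end Pool.Agent.Results.MP_4d5ce1_nt.AllHeightsNumberFields
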