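import Pool.Agent.Y911.PL.Main

set_option autoImplicit false

namespace Pool.Agent.Results.MP_4d5ce1_nt.AlmostAllPoints

open Finset

/-- Normalised coprime integer coordinates: each point `[x₀ : x₁]` of the projective line over `ℚ`
has exactly one such pair. -/
def Nrm (x : ℤ × ℤ) : Prop := IsCoprime x.1 x.2 ∧ (0 < x.2 ∨ x.2 = 0 ∧ 0 < x.1)

/-- The sum over the primes `p ∉ S` and over `ℓ` of the truncated local heights
`λ⁽¹⁾_p(α_ℓ, x)`: for coprime coordinates of `x` and `α_ℓ` this is `log p` if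
`p ∣ x₀ a₁ - x₁ a₀` and `0` otherwise. -/
noncomputable def N1 {q : ℕ} (α : Fin q → ℤ × ℤ) (S : Finset ℕ) (x : ℤ × ℤ) : ℝ :=
  ∑ i, ∑ p ∈ (x.1 * (α i).2 - x.2 * (α i).1).natAbs.primeFactors \ S, Real.log p

/-- The absolute logarithmic height of the point with the coprime coordinates `x`. -/
noncomputable def hgt (x : ℤ × ℤ) : ℝ := Real.log (max x.1.natAbs x.2.natAbs : ℕ)

/-- The points `x`, different from all the `α_ℓ`, with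
`∑_{p ∉ S} ∑_ℓ λ⁽¹⁾_p(α_ℓ, x) ≤ log X`; there is no condition on the height of `x`. -/
def Pts {q : ℕ} (α : Fin q → ℤ × ℤ) (S : Finset ℕ) (X : ℝ) : Set (ℤ × ℤ) :=
  {x | Nrm x ∧ (∀ i, x.1 * (α i).2 - x.2 * (α i).1 ≠ 0) ∧ N1 α S x ≤ Real.log X}

/-- The points of `Pts α S X` at which `(q - ε) h(x) ≤ ∑_{p ∉ S} ∑_ℓ λ⁽¹⁾_p(α_ℓ, x)` fails. -/
def Bad {q : ℕ} (α : Fin q → ℤ × ℤ) (S : Finset ℕ) (ε X : ℝ) : Set (ℤ × ℤ) :=
  {x | x ∈ Pts α S X ∧ N1 α S x < ((q : ℝ) - ε) * hgt x}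

/-- **Vojta's inequality for almost all points of the projective line over `ℚ`.** Let `q ≥ 3`, let
`α_1, …, α_q` be distinct points of `ℙ¹(ℚ)` (coprime integer coordinates) and `S` a finite set of
primes. Let `N(X)` be the number of all points `x ∈ ℙ¹(ℚ)`, different from all the `α_ℓ`, of
whatever height, with `∑_{p ∉ S} ∑_ℓ λ⁽¹⁾_p(α_ℓ, x) ≤ log X`. Then `N(X)` is finite and has the
exact order of magnitude `X^(2/q)`. For every `ε > 0` all but at most `C X^(2/q-ν)` of these points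
satisfy `(q - ε) h(x) ≤ ∑_{p ∉ S} ∑_ℓ λ⁽¹⁾_p(α_ℓ, x)`; here the coefficient `q` is the largest
possible one, by the third part: the right side is at most `q h(x) + C` for every point. -/
theorem result (q : ℕ) (hq : 3 ≤ q) (α : Fin q → ℤ × ℤ)
    (_hcop : ∀ i, IsCoprime (α i).1 (α i).2)
    (hα : ∀ i j, i ≠ j → (α i).1 * (α j).2 ≠ (α j).1 * (α i).2) (S : Finset ℕ) :
    ((∃ C : ℝ, 0 < C ∧ ∀ X : ℝ, 1 ≤ X → (Pts α S X).Finite ∧
        ((Pts α S X).ncard : ℝ) ≤ C * X ^ (2 / (q : ℝ))) ∧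
      (∃ c : ℝ, 0 < c ∧ ∃ X₀ : ℝ, ∀ X : ℝ, X₀ ≤ X →
        c * X ^ (2 / (q : ℝ)) ≤ ((Pts α S X).ncard : ℝ))) ∧
    (∀ ε : ℝ, 0 < ε → ∃ ν : ℝ, 0 < ν ∧ ∃ C : ℝ, 0 < C ∧ ∀ X : ℝ, 1 ≤ X →
      ((Bad α S ε X).ncard : ℝ) ≤ C * X ^ (2 / (q : ℝ) - ν)) ∧
    (∃ C : ℝ, ∀ x : ℤ × ℤ, Nrm x → (∀ i, x.1 * (α i).2 - x.2 * (α i).1 ≠ 0) →
      N1 α S x ≤ q * hgt x + C) := by
  refine ⟨⟨?_, Pool.Agent.Results.MP_4d5ce1_nt.AllHeightsSharp.lower q hq α hα S⟩, ?_,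
    Pool.Agent.Y911.PL.N1_le α hα S⟩
  · obtain ⟨C, hC, h⟩ := Pool.Agent.Y911.PL.upper_sharp hq α hα S
    exact ⟨C, hC, fun X hX => ⟨Pool.Agent.Y911.PL.pts_finite hq α hα S hX, h X hX⟩⟩
  · intro ε hε
    exact Pool.Agent.Y911.PL.exceptions_le hq α hα S hε

end Pool.Agent.Results.MP_4d5ce1_nt.AlmostAllPoints
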