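import Mathlib
import Pool.Agent.Y724.T4.P1C
import Pool.Agent.Y724.T4.RTH

set_option autoImplicit false

/-!
# Vojta's inequality with truncated counting functions for finite subsets of the projective line, for
# the points with sparse coordinates and sparse radical over all number fields of bounded degree

`D` is a binary form of degree `Q` with integer coefficients and simple zeros. For all finite sets `S`
of primes, all `r` and all `ε > 0` the inequality
`(q - 2 - ε) h(x) ≤ ∑_{v ∉ S} ∑_i λ_v^(1)(α_i, x) + d(K) + C` holds, with one constant `C`, for all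
number fields `K` of degree at most `r`, all sets `α_1, …, α_q` of zeros of `D` in `ℙ¹(K)`, and ALL
points `x` of `ℙ¹(K)` whose coordinates and whose radical of `D(x)` are sparse. (A given finite
subset of `ℙ¹(k)`, `k` a number field, consists of zeros of such a form `D`.)
-/

namespace Pool.Agent.Results.MP_4d5ce1_nt.SparsePointsLine

open MvPolynomial NumberField

/-- all zeros of the form `D` are simple -/
def HasSimpleZeros (D : MvPolynomial (Fin 2) ℤ) : Prop :=
  ∀ z : Fin 2 → ℂ, z ≠ 0 → aeval z D = 0 → ∃ y, aeval z (pderiv y D) ≠ 0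

section field
variable {K : Type} [Field K] [NumberField K]

/-- the absolute logarithmic height `h(x)` of the point `[x 0 : x 1]` -/
noncomputable def height (x : Fin 2 → K) : ℝ :=
  Height.logHeight x / Module.finrank ℚ K

variable (K) in
/-- the logarithmic discriminant `d(K)` -/
noncomputable def logDisc : ℝ :=
  Real.log |((NumberField.discr K : ℤ) : ℝ)| / Module.finrank ℚ K

/-- `log N(𝔭) / [K : ℚ]` for the prime ideal `𝔭` of the finite place `v` -/
noncomputable def logNorm (v : FinitePlace K) : ℝ :=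
  Real.log ((Ideal.absNorm v.maximalIdeal.asIdeal : ℕ) : ℝ) / Module.finrank ℚ K

/-- The local height `λ_v(a, x)` of the points `[a 0 : a 1]` and `[x 0 : x 1]`. (Mathlib's absolute
value `v` of a finite place is the `[K : ℚ]`-th power of `‖ ‖_v`.) -/
noncomputable def localHeight (a x : Fin 2 → K) (v : FinitePlace K) : ℝ :=
  Real.log ((⨆ j, v (x j)) * (⨆ j, v (a j)) / v (x 0 * a 1 - x 1 * a 0)) / Module.finrank ℚ K

/-- the truncated local height `λ_v^(1)(a, x)` -/
noncomputable def truncatedHeight (a x : Fin 2 → K) (v : FinitePlace K) : ℝ :=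
  min (localHeight a x v) (logNorm v)

variable (K) in
/-- the finite places of `K` over the primes in `S` -/
def placesOver (S : Finset ℕ) : Set (FinitePlace K) :=
  {v | ∃ p ∈ S, v (p : K) < 1}

/-- `x` meets `D` modulo `v`: `D` vanishes at the reduction of `x`. -/
def Meets (D : MvPolynomial (Fin 2) ℤ) (Q : ℕ) (x : Fin 2 → K) (v : FinitePlace K) : Prop :=
  v (aeval x D) < (⨆ j, v (x j)) ^ Q

/-- The truncated counting function `N_S^(1)(D, x)`: the sum of `log N(𝔭) / [K : ℚ]` over the places not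
over `S` at which `x` meets `D`. -/
noncomputable def truncated (D : MvPolynomial (Fin 2) ℤ) (Q : ℕ) (S : Finset ℕ)
    (x : Fin 2 → K) : ℝ :=
  ∑ᶠ v ∈ {v : FinitePlace K | v ∉ placesOver K S ∧ Meets D Q x v}, logNorm v

/-- `ρ` is a radical of `D(x)` outside `S`: at the places not over `S` it has at most simple zeros, and
only where `x` meets `D`. -/
def IsRadical (D : MvPolynomial (Fin 2) ℤ) (Q : ℕ) (S : Finset ℕ) (x : Fin 2 → K) (ρ : K) :
    Prop :=
  ∀ v : FinitePlace K, v ∉ placesOver K S → v ρ < 1 →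
    ((Ideal.absNorm v.maximalIdeal.asIdeal : ℕ) : ℝ)⁻¹ ≤ v ρ ∧ Meets D Q x v

/-- The parameters of the elements `y k` of the number field with the basis `ω`: the structure
constants of `ω` (the coordinates of the products `ω i * ω j`) and the coordinates of the `y k` in the
basis. -/
noncomputable def params {n : ℕ} {κ : Type} (ω : Module.Basis (Fin n) ℚ K) (y : κ → K) :
    (Fin n × Fin n × Fin n) ⊕ (κ × Fin n) → ℚ :=
  Sum.elim (fun t => ω.repr (ω t.1 * ω t.2.1) t.2.2) (fun t => ω.repr (y t.1) t.2)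

/-- the numbers `x j`, `b j` and `ρ` -/
def data (x b : Fin 2 → K) (ρ : K) : Fin 2 ⊕ Fin 2 ⊕ Unit → K :=
  Sum.elim x (Sum.elim b (fun _ => ρ))

/-- All algebraic integers of `K` are combinations of the `ω i` with `S`-integral coefficients. If
the structure constants of `ω` are `S`-integral as well, then `ω` is a basis over `ℤ_S` of the ring
of `S`-integers of `K`. -/
def SpansIntegers {n : ℕ} (S : Finset ℕ) (ω : Module.Basis (Fin n) ℚ K) : Prop :=
  ∀ (y : 𝓞 K) (i : Fin n) (p : ℕ), p.Prime → p ∣ (ω.repr (y : K) i).den → p ∈ S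

end field

/-! ### Short sums of `S`-units -/

/-- `u` is an `S`-unit: plus or minus a product of powers (with integer exponents) of the primes in
`S` -/
def IsSUnit (S : Finset ℕ) (u : ℚ) : Prop :=
  ∃ (σ : ℤ) (e : ℕ → ℤ), (σ = 1 ∨ σ = -1) ∧ u = σ * ∏ p ∈ S, (p : ℚ) ^ e p

/-- the maximum of the absolute values of the numerators and denominators of the `z i` -/
def size {ι : Type} [Fintype ι] (z : ι → ℚ) : ℕ :=
  Finset.univ.sup (fun i => max (z i).num.natAbs (z i).den)

/-- The rational vector `z` is a sum of `l` integer vectors with entries of absolute value at most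
`B * H ^ δ`, `H` the size of `z`, multiplied by `S`-units. -/
def IsShortSum {ι : Type} [Fintype ι] (S : Finset ℕ) (l : ℕ) (B δ : ℝ) (z : ι → ℚ) : Prop :=
  ∃ (u : Fin l → ℚ) (m : Fin l → ι → ℤ), (∀ j, IsSUnit S (u j)) ∧
    (∀ j i, |(m j i : ℝ)| ≤ B * (size z : ℝ) ^ δ) ∧ ∀ i, z i = ∑ j, u j * m j i

/-- The sparse points over the number field `K` with the basis `ω`: there are a radical `ρ ≠ 0` of
`D(x)` outside `S` and elements `b j` of `K` with `ρ ^ m * x j ^ Q = D(x) * b j` for `j = 0, 1` (if
the `b j` are `S`-integral, this means that `ρ` vanishes wherever `x` meets `D`, and that no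
multiplicity exceeds `m`), such that the structure constants of `ω` and the coordinates of the `x j`,
`b j` and `ρ` with respect to `ω` together form a sum of `l` integer vectors with entries of absolute
value at most `B H ^ δ` multiplied by `S`-units, `H` their size, and `log H ≤ A (h(x) + 1)`. -/
def IsSparsePoint {K : Type} [Field K] [NumberField K] {n : ℕ} (D : MvPolynomial (Fin 2) ℤ)
    (Q : ℕ) (S : Finset ℕ) (l m : ℕ) (A B δ : ℝ) (ω : Module.Basis (Fin n) ℚ K)
    (x : Fin 2 → K) : Prop :=
  ∃ (ρ : K) (b : Fin 2 → K), ρ ≠ 0 ∧ (∀ j, ρ ^ m * x j ^ Q = aeval x D * b j) ∧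
    IsRadical D Q S x ρ ∧ IsShortSum S l B δ (params ω (data x b ρ)) ∧
    Real.log (size (params ω (data x b ρ))) ≤ A * (height x + 1)

/-- **Main theorem.** Let `D` be a binary form of degree `Q` with integer coefficients and simple
zeros, `S` a finite set of primes, `r`, `l`, `m` natural numbers, `A`, `B` and `ε > 0` real numbers.
There are `δ > 0` and a constant `C` such that for all number fields `K` of degree `n ≤ r` and all
points `x` of `ℙ¹(K)` which are sparse with respect to some basis of the `S`-integers of `K`: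
* `(Q - 2 - ε) h(x) ≤ N_S^(1)(D, x) + d(K) + C`;
* `(q - 2 - ε) h(x) ≤ ∑_{v ∉ S} ∑_i λ_v^(1)(α_i, x) + d(K) + C` for all pairwise distinct zeros
  `α_1, …, α_q` of `D` in `ℙ¹(K)`. -/
theorem result (Q : ℕ) (D : MvPolynomial (Fin 2) ℤ) (hD : D.IsHomogeneous Q)
    (hsimple : HasSimpleZeros D) (S : Finset ℕ) (hS : ∀ p ∈ S, p.Prime) (r l m : ℕ)
    (A B ε : ℝ) (hε : 0 < ε) :
    ∃ (δ C : ℝ), 0 < δ ∧ ∀ (n : ℕ), n ≤ r → ∀ (K : Type) [Field K] [NumberField K]
      (ω : Module.Basis (Fin n) ℚ K) (x : Fin 2 → K), x ≠ 0 → SpansIntegers S ω →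
      IsSparsePoint D Q S l m A B δ ω x →
      (Q - 2 - ε) * height x ≤ truncated D Q S x + logDisc K + C ∧
      ∀ (q : ℕ) (α : Fin q → Fin 2 → K), (∀ i, α i ≠ 0) →
        (∀ i j, i ≠ j → α i 0 * α j 1 ≠ α i 1 * α j 0) → (∀ i, aeval (α i) D = 0) →
        (q - 2 - ε) * height x ≤
          ∑ᶠ v ∈ (placesOver K S)ᶜ, ∑ i, truncatedHeight (α i) x v + logDisc K + C := by
  classical
  obtain ⟨δ, Φ, k, C, hδ, hΦh, ⟨z0, hz0, hΦz0⟩, hmain⟩ :=
    Pool.Agent.Y724.T4.R7.main7 1 0 0 1 1 Pool.Agent.Y724.T4.noG (fun k => k.elim0)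
      (fun k => k.elim0) (Pool.Agent.Y724.T4.oneF D) (fun _ _ => Q) (fun _ _ => hD)
      Pool.Agent.Y724.T4.p1_dim (Pool.Agent.Y724.T4.p1_smooth D hsimple) S hS
      r l m Q (fun _ _ => le_rfl) A B ε hε
  have hΦ0 : Φ ≠ 0 := by
    rintro rfl
    exact hΦz0 (map_zero _)
  obtain ⟨C2, hC2, hroot⟩ := Pool.Agent.Y724.T4.root_height2 Φ hΦ0 k hΦh
  obtain ⟨C3, hC3, hcount⟩ := Pool.Agent.Y724.T4.p1_count D Q hD
  refine ⟨δ, |C| + Q * C2 + C3, hδ, ?_⟩
  intro n hn K _ _ ω x hx hspan ⟨ρ, b, hρ0, hb, hrad, hshort, hlog⟩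
  have hnK : Module.finrank ℚ K = n := by
    rw [Module.finrank_eq_card_basis ω, Fintype.card_fin]
  have hn0 : 0 < n := by
    rw [← hnK]
    exact Module.finrank_pos
  have hnR : (0 : ℝ) < n := by exact_mod_cast hn0
  have hnR' : (0 : ℝ) < Module.finrank ℚ K := by rw [hnK]; exact hnR
  -- `x` is not on `D`
  have hDx : aeval x D ≠ 0 := by
    intro h
    apply hx
    funext j
    by_contra hj
    have h1 := hb j
    rw [h, zero_mul] at h1
    exact mul_ne_zero (pow_ne_zero m hρ0) (pow_ne_zero Q hj) h1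
  have hh0 : 0 ≤ height x := div_nonneg (Height.logHeight_nonneg _) (Nat.cast_nonneg _)
  have hD0 : 0 ≤ logDisc K := by
    refine div_nonneg (Real.log_nonneg ?_) (Nat.cast_nonneg _)
    have h1 : (1 : ℤ) ≤ |NumberField.discr K| := Int.one_le_abs (NumberField.discr_ne_zero K)
    have h2 : ((1 : ℤ) : ℝ) ≤ ((|NumberField.discr K| : ℤ) : ℝ) := by exact_mod_cast h1
    rwa [Int.cast_abs, Int.cast_one] at h2
  have hlN0 : ∀ v : FinitePlace K, 0 ≤ logNorm v := fun v =>
    div_nonneg (Real.log_natCast_nonneg _) (Nat.cast_nonneg _)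
  have hN0 : 0 ≤ truncated D Q S x := finsum_nonneg fun v => finsum_nonneg fun _ => hlN0 v
  have hQ0 : (0 : ℝ) ≤ Q := Nat.cast_nonneg _
  -- the first inequality
  have hfirst : (Q - 2 - ε) * height x ≤ truncated D Q S x + logDisc K + (|C| + Q * C2) := by
    by_cases hΦx : aeval x Φ = 0
    · have h1 := hroot K x hΦx
      have h2 : height x ≤ C2 := by
        unfold height
        rw [div_le_iff₀ hnR']
        exact h1
      have h3 : (Q - 2 - ε) * height x ≤ Q * height x :=
        mul_le_mul_of_nonneg_right (by linarith) hh0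
      have h4 : Q * height x ≤ Q * C2 := mul_le_mul_of_nonneg_left h2 hQ0
      have h5 := abs_nonneg C
      linarith
    · set b' : Fin 1 → Fin (1 + 0 + 1) → Fin 1 → K := fun _ y _ => b y with hb'
      have hmul : Pool.Agent.Y724.T4.R7.IsMultiple (Pool.Agent.Y724.T4.oneF D) m Q x b' ρ := by
        intro i y
        rw [Fin.sum_univ_one]
        exact hb y
      -- the parameters
      set g : Fin (1 + 0 + 1) ⊕ (Fin 1 × Fin (1 + 0 + 1) × Fin 1) ⊕ Unit →
        Fin 2 ⊕ Fin 2 ⊕ Unit := Sum.map id (Sum.map (fun k => k.2.1) id) with hg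
      have hgs : Function.Surjective g := by
        rintro (i | i | i)
        · exact ⟨Sum.inl i, rfl⟩
        · exact ⟨Sum.inr (Sum.inl (0, i, 0)), rfl⟩
        · exact ⟨Sum.inr (Sum.inr i), rfl⟩
      set e : (Fin n × Fin n × Fin n) ⊕
        ((Fin (1 + 0 + 1) ⊕ (Fin 1 × Fin (1 + 0 + 1) × Fin 1) ⊕ Unit) × Fin n) →
        (Fin n × Fin n × Fin n) ⊕ ((Fin 2 ⊕ Fin 2 ⊕ Unit) × Fin n) :=
        Sum.map id (Prod.map g id) with he
      have hes : Function.Surjective e := by
        rintro (i | ⟨i, j⟩)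
        · exact ⟨Sum.inl i, rfl⟩
        · obtain ⟨i', rfl⟩ := hgs i
          exact ⟨Sum.inr (i', j), rfl⟩
      have hpar : Pool.Agent.Y724.T4.R7.params ω (Pool.Agent.Y724.T4.R7.data x b' ρ) =
          params ω (data x b ρ) ∘ e := by
        funext k
        rcases k with k | ⟨k | ⟨k, j, j'⟩ | k, i⟩
        · rfl
        · rfl
        · rfl
        · rfl
      have hsz : Pool.Agent.Y724.T4.R7.size (Pool.Agent.Y724.T4.R7.params ω
          (Pool.Agent.Y724.T4.R7.data x b' ρ)) = size (params ω (data x b ρ)) := by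
        rw [hpar, Pool.Agent.Y724.T4.size_comp _ e hes]
        rfl
      have hsh : Pool.Agent.Y724.T4.R7.IsShortSum S l B δ (Pool.Agent.Y724.T4.R7.params ω
          (Pool.Agent.Y724.T4.R7.data x b' ρ)) := by
        rw [hpar]
        exact Pool.Agent.Y724.T4.short_comp _ e hes hshort
      have h1 := (hmain n hn K ω x b' ρ (fun k => k.elim0) hρ0 hmul hsh hΦx _
        (Pool.Agent.Y724.T4.p1_basis x)).2 hspan (by rw [hsz]; exact hlog)
        (fun v hv hv1 => ⟨(hrad v hv hv1).1,
          (Pool.Agent.Y724.T4.p1_meets D Q x hx hDx v).2 (hrad v hv hv1).2⟩)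
      rw [Pool.Agent.Y724.T4.p1_canonical, Pool.Agent.Y724.T4.p1_divisor D Q x hx hDx] at h1
      have h3 : -2 * Height.logHeight x / Module.finrank ℚ K +
          Q * Height.logHeight x / Module.finrank ℚ K = (Q - 2) * height x := by
        unfold height
        ring
      rw [h3] at h1
      have h4 : Pool.Agent.Y724.T4.R7.height x = height x := rfl
      have h5 : Pool.Agent.Y724.T4.R7.logDisc K = logDisc K := rfl
      have h6 : Pool.Agent.Y724.T4.R7.truncated (Pool.Agent.Y724.T4.oneF D) (fun _ _ => Q) S x =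
          truncated D Q S x := by
        unfold Pool.Agent.Y724.T4.R7.truncated truncated logNorm
        rw [div_eq_mul_inv, finsum_mem_def, finsum_mem_def, finsum_mul]
        refine finsum_congr fun v => ?_
        rw [Set.indicator_apply, Set.indicator_apply]
        have h7 : (v ∈ {v : FinitePlace K | v ∉ Pool.Agent.Y724.T4.R7.placesOver K S ∧
            ∃ i, 0 < Pool.Agent.Y724.T4.R7.localHeight (Pool.Agent.Y724.T4.oneF D i)
              (fun _ => Q) x v.1}) ↔
            v ∈ {v : FinitePlace K | v ∉ placesOver K S ∧ Meets D Q x v} := by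
          constructor
          · rintro ⟨h8, h9⟩
            exact ⟨h8, (Pool.Agent.Y724.T4.p1_meets D Q x hx hDx v).1 h9⟩
          · rintro ⟨h8, h9⟩
            exact ⟨h8, (Pool.Agent.Y724.T4.p1_meets D Q x hx hDx v).2 h9⟩
        by_cases h8 : v ∈ {v : FinitePlace K | v ∉ placesOver K S ∧ Meets D Q x v}
        · rw [if_pos (h7.2 h8), if_pos h8, div_eq_mul_inv]
        · rw [if_neg (fun h => h8 (h7.1 h)), if_neg h8, zero_mul]
      rw [h4, h5, h6] at h1
      have h7 := le_abs_self C
      have h8 : 0 ≤ Q * C2 := mul_nonneg hQ0 hC2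
      linarith
  refine ⟨by linarith, ?_⟩
  intro q α hα hdis hz
  have h1 := hcount K q α hα hdis hz x hx hDx (placesOver K S)ᶜ
  have h2 : truncated D Q S x ≤
      ∑ᶠ v ∈ (placesOver K S)ᶜ, ∑ i, truncatedHeight (α i) x v + (Q - q) * height x + C3 := by
    have e1 : truncated D Q S x = (∑ᶠ v ∈ {v : FinitePlace K | v ∈ (placesOver K S)ᶜ ∧
        v (aeval x D) < (⨆ j, v (x j)) ^ Q},
        Real.log ((Ideal.absNorm v.maximalIdeal.asIdeal : ℕ) : ℝ)) / Module.finrank ℚ K := by
      unfold truncated logNorm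
      rw [div_eq_mul_inv, finsum_mem_def, finsum_mem_def, finsum_mul]
      refine finsum_congr fun v => ?_
      rw [Set.indicator_apply, Set.indicator_apply]
      by_cases h8 : v ∈ {v : FinitePlace K | v ∉ placesOver K S ∧ Meets D Q x v}
      · have h9 : v ∈ {v : FinitePlace K | v ∈ (placesOver K S)ᶜ ∧
          v (aeval x D) < (⨆ j, v (x j)) ^ Q} := h8
        rw [if_pos h8, if_pos h9, div_eq_mul_inv]
      · have h9 : v ∉ {v : FinitePlace K | v ∈ (placesOver K S)ᶜ ∧
          v (aeval x D) < (⨆ j, v (x j)) ^ Q} := h8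
        rw [if_neg h8, if_neg h9, zero_mul]
    have e2 : ∑ᶠ v ∈ (placesOver K S)ᶜ, ∑ i, truncatedHeight (α i) x v =
        (∑ᶠ v ∈ (placesOver K S)ᶜ, ∑ i, Pool.Agent.Y724.T4.lam v (α i) x) /
          Module.finrank ℚ K := by
      rw [div_eq_mul_inv, finsum_mem_def, finsum_mem_def, finsum_mul]
      refine finsum_congr fun v => ?_
      rw [Set.indicator_apply, Set.indicator_apply]
      by_cases h8 : v ∈ (placesOver K S)ᶜ
      · rw [if_pos h8, if_pos h8, ← div_eq_mul_inv, Finset.sum_div]
        refine Finset.sum_congr rfl fun i _ => ?_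
        unfold truncatedHeight localHeight logNorm Pool.Agent.Y724.T4.lam
        rw [min_div_div_right hnR'.le]
      · rw [if_neg h8, if_neg h8, zero_mul]
    rw [e1, e2, div_le_iff₀ hnR']
    have e3 : height x * Module.finrank ℚ K = Height.logHeight x := by
      unfold height
      field_simp
    have e4 : ∀ s : ℝ, (s / Module.finrank ℚ K + (Q - q) * height x + C3) *
        Module.finrank ℚ K = s + (Q - q) * (height x * Module.finrank ℚ K) +
          C3 * Module.finrank ℚ K := by
      intro s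
      field_simp
    rw [e4, e3]
    exact h1
  linarith

end Pool.Agent.Results.MP_4d5ce1_nt.SparsePointsLine
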